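import Pool.Agent.Helper22.SC.LvU

/-! # Quantifiers over tuples, collection for tuples -/

universe u

namespace Pool.Agent.Helper99.SC

open ZFSet
open Pool.Agent.Helper66.SC Pool.Agent.Helper22.SC
open Pool.Agent.Helper66.SC (Cls)

variable {C : Cls.{u}}
variable {α β γ : Type (u + 1)} [Ctx.{u} α] [Ctx.{u} β] [Ctx.{u} γ]

/-- decoding of a tuple -/
noncomputable def dec (k : ℕ) (e : ZFSet.{u}) : Fin k → ZFSet.{u} := fun i => nth e (nat i)

theorem dec_tup {k : ℕ} (v : Fin k → ZFSet.{u}) : dec k (tup v) = v :=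
  funext fun i => nth_tup v i

theorem U.dec [ZCls C] (k : ℕ) {f : Set ZFSet.{u} → Set ZFSet.{u} → α → ZFSet.{u}}
    (hf : U C f) : U C (fun N A a => SC.dec k (f N A a)) :=
  U.finMk (fun i => U.nth hf (U.nat' i))

/-- bounded quantifiers over tuples -/
theorem URel.ballN [ZCls C] (k : ℕ)
    {R : Set ZFSet.{u} → Set ZFSet.{u} → α → (Fin k → ZFSet.{u}) → Prop}
    {f : Set ZFSet.{u} → Set ZFSet.{u} → α → ZFSet.{u}} (hf : U C f)
    (hR : Helper22.SC.URel C (fun N A (p : α × (Fin k → ZFSet.{u})) => R N A p.1 p.2)) :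
    Helper22.SC.URel C (fun N A a => ∀ v : Fin k → ZFSet.{u}, (∀ i, v i ∈ f N A a) → R N A a v) := by
  have h1 : Helper22.SC.URel C (fun N A (a : α) => ∀ e ∈ tsetS (f N A a) (nat k),
      R N A a (SC.dec k e)) := by
    refine Helper22.SC.URel.ball (R := fun N A a e => R N A a (SC.dec k e))
      (U.tsetS hf (U.nat' k)) ?_
    exact hR.comp (f := fun _ _ (p : α × ZFSet.{u}) => (p.1, SC.dec k p.2))
      (U.id.fst.prodMk (U.dec k U.id.snd))
  refine h1.congr fun N A _ a _ => ?_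
  rw [tsetS_nat]
  constructor
  · intro h v hv
    have := h (tup v) (tup_mem_tset.2 hv)
    rwa [dec_tup] at this
  · intro h e he
    obtain ⟨v, hv, rfl⟩ := mem_tset.1 he
    rw [dec_tup]
    exact h v hv

/-- collection for tuples -/
theorem collN [ZCls C] (k : ℕ)
    {R : Set ZFSet.{u} → Set ZFSet.{u} → α → (Fin k → ZFSet.{u}) → ZFSet.{u} → Prop}
    (hR : Helper22.SC.URel C (fun N A (p : (α × (Fin k → ZFSet.{u})) × ZFSet.{u}) =>
      R N A p.1.1 p.1.2 p.2))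
    {N A : Set ZFSet.{u}} (hN : C N A) {a : α} (ha : In N a) {d : ZFSet.{u}} (hd : d ∈ N)
    (h : ∀ v : Fin k → ZFSet.{u}, (∀ i, v i ∈ d) → ∃ y ∈ N, R N A a v y) :
    ∃ b ∈ N, ∀ v : Fin k → ZFSet.{u}, (∀ i, v i ∈ d) → ∃ y ∈ b, R N A a v y := by
  have hd' : tset d k ∈ N := by
    have := (U.tsetS (C := C) (U.id (α := ZFSet.{u})) (U.nat' k)).closed hN (a := d)
      (in_zfset.2 hd)
    rw [tsetS_nat] at this
    exact in_zfset.1 this
  obtain ⟨b, hb, h'⟩ := coll_of_urel (C := C) (α := α)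
    (R := fun N A a e y => R N A a (SC.dec k e) y)
    (hR.comp (f := fun _ _ (p : (α × ZFSet.{u}) × ZFSet.{u}) =>
      ((p.1.1, SC.dec k p.1.2), p.2))
      (((U.id.fst.fst).prodMk (U.dec k U.id.fst.snd)).prodMk U.id.snd)) hN ha hd' (by
      intro e he
      obtain ⟨v, hv, rfl⟩ := mem_tset.1 he
      obtain ⟨y, hy, hy'⟩ := h v hv
      refine ⟨y, hy, ?_⟩
      rw [dec_tup]
      exact hy')
  refine ⟨b, hb, fun v hv => ?_⟩
  obtain ⟨y, hy, hy'⟩ := h' (tup v) (tup_mem_tset.2 hv)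
  rw [dec_tup] at hy'
  exact ⟨y, hy, hy'⟩

/-! ### `L[A]` -/

theorem mem_LOf {M A : Set ZFSet.{u}} (hM : IsZF M A) {B : Set ZFSet.{u}} {x : ZFSet.{u}} :
    x ∈ LOf M B ↔ ∃ y ∈ M, x ∈ Lv B y.rank := by
  constructor
  · rintro ⟨o, ho, hx⟩
    exact ⟨oz o, ho, by simpa [oz] using hx⟩
  · rintro ⟨y, hy, hx⟩
    exact ⟨y.rank, hM.rk_mem hy, hx⟩

theorem urel_LOf [ZCls C] {f : Set ZFSet.{u} → Set ZFSet.{u} → α → ZFSet.{u}} (hf : U C f) :
    Helper22.SC.URel C (fun M A a => f M A a ∈ LOf M A) := by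
  have h0 : Helper22.SC.URel C (fun M A (x : ZFSet.{u}) => ∃ y ∈ M, x ∈ Lv A y.rank) := by
    refine Helper22.SC.URel.ex (R := fun M A (x : ZFSet.{u}) y => x ∈ Lv A y.rank) ?_
    refine Helper22.SC.URel.mem U.id.fst ?_
    exact U.lv (B := fun _ A _ => A) U.id.snd (Helper22.SC.URel.prd U.id.snd)
  have h1 : Helper22.SC.URel C (fun M A (x : ZFSet.{u}) => x ∈ LOf M A) :=
    h0.congr fun M A hM x _ => (mem_LOf (ZCls.isZF hM)).symm
  exact h1.comp hf

theorem urel_satL [ZCls C] (hL : ∀ M A, C M A → LOf M A ⊆ M) {k : ℕ} (φ : Fml k) :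
    Helper22.SC.URel C (fun M A (v : Fin k → ZFSet.{u}) => Sat (LOf M A) A φ v) := by
  induction φ with
  | mem i j => exact Helper22.SC.URel.mem (U.id.eval i) (U.id.eval j)
  | eq i j => exact Helper22.SC.URel.eq (U.id.eval i) (U.id.eval j)
  | pr i => exact Helper22.SC.URel.prd (U.id.eval i)
  | neg φ ih => exact ih.not
  | and φ ψ ih1 ih2 => exact ih1.and ih2
  | @ex k φ ih =>
    have h1 : Helper22.SC.URel C (fun M A (v : Fin k → ZFSet.{u}) => ∃ x ∈ M, x ∈ LOf M A ∧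
        Sat (LOf M A) A φ (Fin.cons x v)) := by
      refine Helper22.SC.URel.ex (R := fun M A (v : Fin k → ZFSet.{u}) x => x ∈ LOf M A ∧
        Sat (LOf M A) A φ (Fin.cons x v)) ?_
      refine (urel_LOf U.id.snd).and ?_
      exact ih.comp (U.finCons U.id.snd U.id.fst)
    refine h1.congr fun M A hM v _ => ?_
    constructor
    · rintro ⟨x, _, h2, h3⟩
      exact ⟨x, h2, h3⟩
    · rintro ⟨x, h2, h3⟩
      exact ⟨x, hL M A hM h2, h2, h3⟩

end Pool.Agent.Helper99.SC
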