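import Pool.Agent.Helper99.SC.D1
import Pool.Agent.Helper99.SC.Tup

/-! # Module D2r: reflection for `L[A]` -/

universe u

namespace Pool.Agent.Helper99.SC

open ZFSet
open Pool.Agent.Helper66.SC Pool.Agent.Helper22.SC
open Pool.Agent.Helper66.SC (Cls)

/-- `c` contains witnesses for all existential subformulas of `φ` with parameters in `b` -/
def Stp (M A : Set ZFSet.{u}) : {k : ℕ} → Fml k → ZFSet.{u} → ZFSet.{u} → Prop
  | _, .mem _ _, _, _ => True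
  | _, .eq _ _, _, _ => True
  | _, .pr _, _, _ => True
  | _, .neg φ, b, c => Stp M A φ b c
  | _, .and φ ψ, b, c => Stp M A φ b c ∧ Stp M A ψ b c
  | k, .ex φ, b, c => Stp M A φ b c ∧ ∀ v : Fin k → ZFSet.{u}, (∀ i, v i ∈ b) →
      (∃ x ∈ LOf M A, Sat (LOf M A) A φ (Fin.cons x v)) →
        ∃ x ∈ c, Sat (LOf M A) A φ (Fin.cons x v)

theorem Stp.mono {M A : Set ZFSet.{u}} {k : ℕ} {φ : Fml k} {b c c' : ZFSet.{u}}
    (h : Stp M A φ b c) (hc : c ⊆ c') : Stp M A φ b c' := by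
  induction φ with
  | mem i j => trivial
  | eq i j => trivial
  | pr i => trivial
  | neg φ ih => exact ih h
  | and φ ψ ih1 ih2 => exact ⟨ih1 h.1, ih2 h.2⟩
  | ex φ ih =>
    refine ⟨ih h.1, fun v hv hx => ?_⟩
    obtain ⟨x, hx1, hx2⟩ := h.2 v hv hx
    exact ⟨x, hc hx1, hx2⟩

/-- the Tarski-Vaught criterion -/
theorem Stp.refl {M A : Set ZFSet.{u}} {k : ℕ} {φ : Fml k} {S : ZFSet.{u}}
    (hS : ∀ x ∈ S, x ∈ LOf M A) (h : Stp M A φ S S) (v : Fin k → ZFSet.{u})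
    (hv : ∀ i, v i ∈ S) : Sat (LOf M A) A φ v ↔ Sat {z | z ∈ S} A φ v := by
  induction φ with
  | mem i j => exact Iff.rfl
  | eq i j => exact Iff.rfl
  | pr i => exact Iff.rfl
  | neg φ ih => exact not_congr (ih h v hv)
  | and φ ψ ih1 ih2 => exact and_congr (ih1 h.1 v hv) (ih2 h.2 v hv)
  | ex φ ih =>
    constructor
    · intro hx
      obtain ⟨x, hx1, hx2⟩ := h.2 v hv hx
      exact ⟨x, hx1, (ih h.1 (Fin.cons x v) (cons_mem (M := {z | z ∈ S}) hx1 hv)).1 hx2⟩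
    · rintro ⟨x, hx1, hx2⟩
      exact ⟨x, hS x hx1, (ih h.1 (Fin.cons x v) (cons_mem (M := {z | z ∈ S}) hx1 hv)).2 hx2⟩

theorem urel_stp {k : ℕ} (φ : Fml k) :
    Helper22.SC.URel CZ.{u} (fun M A (p : ZFSet.{u} × ZFSet.{u}) => Stp M A φ p.1 p.2) := by
  induction φ with
  | mem i j => exact Helper22.SC.URel.true'
  | eq i j => exact Helper22.SC.URel.true'
  | pr i => exact Helper22.SC.URel.true'
  | neg φ ih => exact ih
  | and φ ψ ih1 ih2 => exact ih1.and ih2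
  | @ex k φ ih =>
    refine ih.and ?_
    refine URel.ballN (α := ZFSet.{u} × ZFSet.{u}) k (f := fun _ _ p => p.1)
      (R := fun M A p v => (∃ x ∈ LOf M A, Sat (LOf M A) A φ (Fin.cons x v)) →
        ∃ x ∈ p.2, Sat (LOf M A) A φ (Fin.cons x v)) U.id.fst ?_
    refine Helper22.SC.URel.imp ?_ ?_
    · exact (urel_satL (C := CZ.{u}) (fun M A hM => (st_D1 M A hM).1) (.ex φ)).comp
        (f := fun _ _ (p : (ZFSet.{u} × ZFSet.{u}) × (Fin k → ZFSet.{u})) => p.2) U.id.snd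
    · refine Helper22.SC.URel.bex (α := (ZFSet.{u} × ZFSet.{u}) × (Fin k → ZFSet.{u}))
        (f := fun _ _ p => p.1.2) (R := fun M A p x => Sat (LOf M A) A φ (Fin.cons x p.2))
        U.id.fst.snd ?_
      exact (urel_satL (C := CZ.{u}) (fun M A hM => (st_D1 M A hM).1) φ).comp
        (f := fun _ _ (p : ((ZFSet.{u} × ZFSet.{u}) × (Fin k → ZFSet.{u})) × ZFSet.{u}) =>
          (Fin.cons p.2 p.1.2 : Fin (k + 1) → ZFSet.{u}))
        (U.finCons U.id.snd U.id.fst.snd)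

theorem exists_stp {M A : Set ZFSet.{u}} (hM : IsZF M A) {k : ℕ} (φ : Fml k) {b : ZFSet.{u}}
    (hb : b ∈ M) : ∃ o : Ordinal.{u}, oz o ∈ M ∧ Stp M A φ b (Lv A o) := by
  obtain ⟨d1, d2, d3, d4, d5, d6⟩ := Pool.Agent.Helper25.SC.st_D0.{u} A
  have h0 : oz 0 ∈ M := by
    have := hM.empty_mem
    simpa [oz] using this
  induction φ with
  | mem i j => exact ⟨0, h0, trivial⟩
  | eq i j => exact ⟨0, h0, trivial⟩
  | pr i => exact ⟨0, h0, trivial⟩
  | neg φ ih => exact ih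
  | and φ ψ ih1 ih2 =>
    obtain ⟨o1, h1, h2⟩ := ih1
    obtain ⟨o2, h3, h4⟩ := ih2
    rcases le_total o1 o2 with h | h
    · exact ⟨o2, h3, h2.mono (d2 _ _ h), h4⟩
    · exact ⟨o1, h1, h2, h4.mono (d2 _ _ h)⟩
  | @ex k φ ih =>
    obtain ⟨o1, h1, h2⟩ := ih
    have hcol := collN (C := CZ.{u}) (α := PUnit.{u + 2}) k
      (R := fun M A _ v y => (∃ x ∈ LOf M A, Sat (LOf M A) A φ (Fin.cons x v)) →
        ∃ x ∈ Lv A y.rank, Sat (LOf M A) A φ (Fin.cons x v)) (by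
        refine Helper22.SC.URel.imp ?_ ?_
        · exact (urel_satL (C := CZ.{u}) (fun M A hM => (st_D1 M A hM).1) (.ex φ)).comp
            (f := fun _ _ (p : (PUnit.{u + 2} × (Fin k → ZFSet.{u})) × ZFSet.{u}) => p.1.2)
            U.id.fst.snd
        · refine Helper22.SC.URel.bex
            (α := (PUnit.{u + 2} × (Fin k → ZFSet.{u})) × ZFSet.{u})
            (f := fun _ A p => Lv A p.2.rank)
            (R := fun M A p x => Sat (LOf M A) A φ (Fin.cons x p.1.2))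
            (U.lv (B := fun _ A _ => A) U.id.snd (Helper22.SC.URel.prd U.id.snd)) ?_
          exact (urel_satL (C := CZ.{u}) (fun M A hM => (st_D1 M A hM).1) φ).comp
            (f := fun _ _ (p : ((PUnit.{u + 2} × (Fin k → ZFSet.{u})) × ZFSet.{u}) ×
              ZFSet.{u}) => (Fin.cons p.2 p.1.1.2 : Fin (k + 1) → ZFSet.{u}))
            (U.finCons U.id.snd U.id.fst.fst.snd)) (N := M) (A := A) hM (a := PUnit.unit)
      (fun i => i.elim0) hb (by
        intro v _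
        by_cases hex : ∃ x ∈ LOf M A, Sat (LOf M A) A φ (Fin.cons x v)
        · obtain ⟨x, ⟨o, ho, hx⟩, hs⟩ := hex
          exact ⟨oz o, ho, fun _ => ⟨x, by simpa [oz] using hx, hs⟩⟩
        · exact ⟨oz 0, h0, fun h => absurd h hex⟩)
    obtain ⟨c, hc, hc'⟩ := hcol
    have hrk : oz c.rank ∈ M := hM.rk_mem hc
    refine ⟨max o1 c.rank, ?_, h2.mono (d2 _ _ (le_max_left _ _)), ?_⟩
    · rcases le_total o1 c.rank with h | h
      · rw [max_eq_right h]; exact hrk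
      · rw [max_eq_left h]; exact h1
    · intro v hv hx
      obtain ⟨y, hy, hy'⟩ := hc' v hv
      obtain ⟨x, hx1, hx2⟩ := hy' hx
      exact ⟨x, d2 _ _ ((rank_lt_of_mem hy).le.trans (le_max_right _ _)) hx1, hx2⟩

/-- the next ordinal -/
noncomputable def nx (M A : Set ZFSet.{u}) {k : ℕ} (φ : Fml k) (o : Ordinal.{u}) :
    Ordinal.{u} :=
  sInf {c | o < c ∧ Stp M A φ (Lv A o) (Lv A c)}

theorem nx_spec {M A : Set ZFSet.{u}} (hM : IsZF M A) {k : ℕ} (φ : Fml k) {o : Ordinal.{u}}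
    (ho : oz o ∈ M) : o < nx M A φ o ∧ Stp M A φ (Lv A o) (Lv A (nx M A φ o)) ∧
      oz (nx M A φ o) ∈ M := by
  obtain ⟨d1, d2, d3, d4, d5, d6⟩ := Pool.Agent.Helper25.SC.st_D0.{u} A
  obtain ⟨c, hc, hs⟩ := exists_stp hM φ (IsZF.Lv_mem hM ho)
  have hmax : max (o + 1) c ∈ {c | o < c ∧ Stp M A φ (Lv A o) (Lv A c)} :=
    ⟨(Order.lt_succ o).trans_le (le_max_left _ _), hs.mono (d2 _ _ (le_max_right _ _))⟩
  have h1 := csInf_mem (s := {c | o < c ∧ Stp M A φ (Lv A o) (Lv A c)}) ⟨_, hmax⟩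
  refine ⟨h1.1, h1.2, ?_⟩
  have hle : nx M A φ o ≤ max (o + 1) c := csInf_le' hmax
  refine IsZF.oz_le hM ?_ hle
  rcases le_total (o + 1) c with h | h
  · rw [max_eq_right h]; exact hc
  · rw [max_eq_left h]; exact IsZF.oz_succ hM ho

theorem rank_oz (o : Ordinal.{u}) : (oz o).rank = o := by simp [oz]

theorem oz_mem_oz {o o' : Ordinal.{u}} : oz o ∈ oz o' ↔ o < o' := Ordinal.toZFSet_mem_toZFSet_iff

theorem u_nx {k : ℕ} (φ : Fml k) :
    U CZ.{u} (fun M A (x : ZFSet.{u}) => oz (nx M A φ x.rank)) := by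
  refine U.of_graph (fun {M A} hM x hx => (nx_spec hM φ (hM.rk_mem (in_zfset.1 hx))).2.2) ?_
  have hS : Helper22.SC.URel CZ.{u} (fun M A (p : ZFSet.{u} × ZFSet.{u}) =>
      Stp M A φ (Lv A p.1.rank) (Lv A p.2.rank)) := by
    refine (urel_stp φ).comp (f := fun _ A (p : ZFSet.{u} × ZFSet.{u}) =>
      (Lv A p.1.rank, Lv A p.2.rank)) ?_
    exact (U.lv (B := fun _ A _ => A) U.id.fst (Helper22.SC.URel.prd U.id.snd)).prodMk
      (U.lv (B := fun _ A _ => A) U.id.snd (Helper22.SC.URel.prd U.id.snd))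
  have h1 : Helper22.SC.URel CZ.{u} (fun M A (p : ZFSet.{u} × ZFSet.{u}) =>
      (p.2.IsOrdinal ∧ rk p.1 ∈ p.2 ∧ Stp M A φ (Lv A p.1.rank) (Lv A p.2.rank)) ∧
      ∀ z ∈ p.2, ¬ (rk p.1 ∈ z ∧ Stp M A φ (Lv A p.1.rank) (Lv A z.rank))) := by
    refine Helper22.SC.URel.and (Helper22.SC.URel.and (Helper22.SC.URel.isOrdinal U.id.snd)
      (Helper22.SC.URel.and (Helper22.SC.URel.mem (U.rk U.id.fst) U.id.snd) hS)) ?_
    refine Helper22.SC.URel.ball (R := fun M A (p : ZFSet.{u} × ZFSet.{u}) z =>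
      ¬ (rk p.1 ∈ z ∧ Stp M A φ (Lv A p.1.rank) (Lv A z.rank))) U.id.snd ?_
    refine Helper22.SC.URel.not (Helper22.SC.URel.and
      (Helper22.SC.URel.mem (U.rk U.id.fst.fst) U.id.snd) ?_)
    exact hS.comp (f := fun _ _ (p : (ZFSet.{u} × ZFSet.{u}) × ZFSet.{u}) => (p.1.1, p.2))
      (U.id.fst.fst.prodMk U.id.snd)
  refine h1.congr fun M A hM p hp => ?_
  obtain ⟨x, y⟩ := p
  obtain ⟨hx, hy⟩ := in_prod.1 hp
  have hxr := hM.rk_mem (in_zfset.1 hx)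
  obtain ⟨s1, s2, s3⟩ := nx_spec hM φ hxr
  simp only
  constructor
  · rintro ⟨⟨h1, h2, h3⟩, h4⟩
    obtain ⟨c, rfl⟩ := ZFSet.isOrdinal_iff_mem_range_toZFSet.1 h1
    change rk x ∈ oz c at h2
    change Stp M A φ (Lv A x.rank) (Lv A (oz c).rank) at h3
    rw [rank_oz] at h3
    have h2' : x.rank < c := oz_mem_oz.1 h2
    change oz c = oz (nx M A φ x.rank)
    have hle : nx M A φ x.rank ≤ c := csInf_le' ⟨h2', h3⟩
    rcases hle.lt_or_eq with hlt | heq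
    · exfalso
      refine h4 (oz (nx M A φ x.rank)) (oz_mem_oz.2 hlt) ⟨oz_mem_oz.2 s1, ?_⟩
      rw [rank_oz]
      exact s2
    · rw [heq]
  · rintro rfl
    refine ⟨⟨isOrdinal_toZFSet _, oz_mem_oz.2 s1, ?_⟩, ?_⟩
    · rw [rank_oz]
      exact s2
    · rintro z hz ⟨h1, h2⟩
      obtain ⟨c, hc, rfl⟩ := Ordinal.mem_toZFSet_iff.1 hz
      change Stp M A φ (Lv A x.rank) (Lv A (oz c).rank) at h2
      rw [rank_oz] at h2
      have h1' : x.rank < c := oz_mem_oz.1 h1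
      exact absurd (csInf_le' (s := {c | x.rank < c ∧ Stp M A φ (Lv A x.rank) (Lv A c)})
        ⟨h1', h2⟩) (not_le.2 hc)

/-- iteration -/
noncomputable def itn (M A : Set ZFSet.{u}) {k : ℕ} (φ : Fml k) (o : Ordinal.{u}) :
    ℕ → Ordinal.{u}
  | 0 => o
  | n + 1 => nx M A φ (itn M A φ o n)

theorem u_itn {k : ℕ} (φ : Fml k) :
    U CZ.{u} (fun M A (x : ZFSet.{u}) => ZFSet.iUnion (fun n : ULift.{u} ℕ =>
      oz (itn M A φ x.rank n.down))) := by
  refine U.natUnion (z := fun _ _ x => rk x) (S := fun M A _ _ g => oz (nx M A φ g.rank))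
    (H := fun M A x n => oz (itn M A φ x.rank n)) (U.rk U.id) ?_ ?_ ?_
  · exact (u_nx φ).comp (f := fun _ _ (p : (ZFSet.{u} × ZFSet.{u}) × ZFSet.{u}) => p.2) U.id.snd
  · intro N A _ a _
    rfl
  · intro N A _ a _ n
    rw [rank_oz]
    rfl

theorem st_D2r : ST_D2r.{u} := by
  intro M A hM k φ o ho
  obtain ⟨d1, d2, d3, d4, d5, d6⟩ := Pool.Agent.Helper25.SC.st_D0.{u} A
  have hit : ∀ n, oz (itn M A φ o n) ∈ M := by
    intro n
    induction n with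
    | zero => exact ho
    | succ n ih => exact (nx_spec hM φ ih).2.2
  have hlt : ∀ n, itn M A φ o n < itn M A φ o (n + 1) := fun n => (nx_spec hM φ (hit n)).1
  have hmono : Monotone (itn M A φ o) := monotone_nat_of_le_succ fun n => (hlt n).le
  have hst : ∀ n, Stp M A φ (Lv A (itn M A φ o n)) (Lv A (itn M A φ o (n + 1))) :=
    fun n => (nx_spec hM φ (hit n)).2.1
  set a : Ordinal.{u} := ⨆ n : ℕ, itn M A φ o n with ha
  have hlta : ∀ b, b < a ↔ ∃ n, b < itn M A φ o n := by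
    intro b
    rw [ha, Ordinal.lt_iSup_iff]
  have hna : ∀ n, itn M A φ o n < a := fun n => (hlta _).2 ⟨n + 1, hlt n⟩
  have haM : oz a ∈ M := by
    have h1 := in_zfset.1 ((u_itn φ).closed hM (a := oz o) (in_zfset.2 ho))
    have h2 : ZFSet.iUnion (fun n : ULift.{u} ℕ => oz (itn M A φ (oz o).rank n.down)) = oz a := by
      ext x
      rw [mem_iUnion, rank_oz, Ordinal.mem_toZFSet_iff]
      constructor
      · rintro ⟨⟨n⟩, hn⟩
        obtain ⟨b, hb, rfl⟩ := Ordinal.mem_toZFSet_iff.1 hn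
        exact ⟨b, (hlta b).2 ⟨n, hb⟩, rfl⟩
      · rintro ⟨b, hb, rfl⟩
        obtain ⟨n, hn⟩ := (hlta b).1 hb
        exact ⟨⟨n⟩, Ordinal.mem_toZFSet_iff.2 ⟨b, hn, rfl⟩⟩
    rwa [h2] at h1
  have hlim : Order.IsSuccLimit a := by
    refine Ordinal.isSuccLimit_iff.2 ⟨(hna 0).ne_bot, ?_⟩
    rw [Order.isSuccPrelimit_iff_succ_lt]
    intro b hb
    obtain ⟨n, hn⟩ := (hlta b).1 hb
    exact (Order.succ_le_of_lt hn).trans_lt (hna n)
  have hLa : ∀ x, x ∈ Lv A a ↔ ∃ n, x ∈ Lv A (itn M A φ o n) := by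
    intro x
    rw [d6 a hlim]
    constructor
    · rintro ⟨b, hb, hx⟩
      obtain ⟨n, hn⟩ := (hlta b).1 hb
      exact ⟨n, d2 _ _ hn.le hx⟩
    · rintro ⟨n, hx⟩
      exact ⟨_, hna n, hx⟩
  have hsup : ∀ {k : ℕ} (ψ : Fml k), (∀ n, Stp M A ψ (Lv A (itn M A φ o n))
      (Lv A (itn M A φ o (n + 1)))) → Stp M A ψ (Lv A a) (Lv A a) := by
    intro k ψ hψ
    induction ψ with
    | mem i j => trivial
    | eq i j => trivial
    | pr i => trivial
    | neg ψ ih => exact ih hψ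
    | and ψ χ ih1 ih2 => exact ⟨ih1 fun n => (hψ n).1, ih2 fun n => (hψ n).2⟩
    | @ex k ψ ih =>
      refine ⟨ih fun n => (hψ n).1, fun v hv hx => ?_⟩
      choose N hN using fun i => (hLa (v i)).1 (hv i)
      obtain ⟨n, hn⟩ : ∃ n, ∀ i, N i ≤ n := by
        obtain ⟨n, hn⟩ := (Set.finite_range N).bddAbove
        exact ⟨n, fun i => hn ⟨i, rfl⟩⟩
      obtain ⟨x, hx1, hx2⟩ := (hψ n).2 v (fun i => d2 _ _ (hmono (hn i)) (hN i)) hx
      exact ⟨x, (hLa x).2 ⟨n + 1, hx1⟩, hx2⟩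
  refine ⟨a, hna 0, haM, fun v hv => ?_⟩
  exact Stp.refl (fun x hx => ⟨a, haM, hx⟩) (hsup φ hst) v hv

end Pool.Agent.Helper99.SC
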