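import Pool.Agent.Helper99.SC.D2r

/-! # Module D2: `L[A]` is a model of ZF -/

universe u

namespace Pool.Agent.Helper99.SC

open ZFSet
open Pool.Agent.Helper66.SC Pool.Agent.Helper22.SC
open Pool.Agent.Helper66.SC (Cls)

variable {α : Type (u + 1)} [Ctx.{u} α]

/-- collection with values in a level of `L[A]` -/
theorem collL {R : Set ZFSet.{u} → Set ZFSet.{u} → α → ZFSet.{u} → ZFSet.{u} → Prop}
    (hR : Helper22.SC.URel CZ.{u} (fun N A (p : (α × ZFSet.{u}) × ZFSet.{u}) =>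
      R N A p.1.1 p.1.2 p.2))
    {M A : Set ZFSet.{u}} (hM : IsZF M A) {a : α} (ha : In M a) {d : ZFSet.{u}} (hd : d ∈ M)
    (h : ∀ x ∈ d, ∃ y ∈ LOf M A, R M A a x y) :
    ∃ o : Ordinal.{u}, oz o ∈ M ∧ ∀ x ∈ d, ∃ y ∈ Lv A o, R M A a x y := by
  obtain ⟨d1, d2, d3, d4, d5, d6⟩ := Pool.Agent.Helper25.SC.st_D0.{u} A
  obtain ⟨c, hc, hc'⟩ := coll_of_urel (C := CZ.{u}) (α := α)
    (R := fun N A a x o => ∃ y ∈ Lv A o.rank, R N A a x y) (by
      refine Helper22.SC.URel.bex (α := (α × ZFSet.{u}) × ZFSet.{u})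
        (f := fun _ A p => Lv A p.2.rank) (R := fun N A p y => R N A p.1.1 p.1.2 y)
        (U.lv (B := fun _ A _ => A) U.id.snd (Helper22.SC.URel.prd U.id.snd)) ?_
      exact hR.comp (f := fun _ _ (p : ((α × ZFSet.{u}) × ZFSet.{u}) × ZFSet.{u}) =>
        ((p.1.1.1, p.1.1.2), p.2)) ((U.id.fst.fst.fst.prodMk U.id.fst.fst.snd).prodMk U.id.snd))
    (N := M) (A := A) hM ha hd (by
      intro x hx
      obtain ⟨y, ⟨o, ho, hy⟩, hxy⟩ := h x hx
      exact ⟨oz o, ho, y, by rw [rank_oz]; exact hy, hxy⟩)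
  refine ⟨c.rank, hM.rk_mem hc, fun x hx => ?_⟩
  obtain ⟨o, ho, y, hy, hxy⟩ := hc' x hx
  exact ⟨y, d2 _ _ (rank_lt_of_mem ho).le hy, hxy⟩

/-- finitely many elements of `L[A]` are in a common level above a given ordinal -/
theorem exists_level {M A : Set ZFSet.{u}} (hM : IsZF M A) {k : ℕ} (p : Fin k → ZFSet.{u})
    (hp : ∀ i, p i ∈ LOf M A) : ∃ o : Ordinal.{u}, oz o ∈ M ∧ ∀ i, p i ∈ Lv A o := by
  obtain ⟨d1, d2, d3, d4, d5, d6⟩ := Pool.Agent.Helper25.SC.st_D0.{u} A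
  induction k with
  | zero =>
    refine ⟨0, ?_, fun i => i.elim0⟩
    have := hM.empty_mem
    simpa [oz] using this
  | succ k ih =>
    obtain ⟨o1, h1, h2⟩ := ih (Fin.tail p) (fun i => hp i.succ)
    obtain ⟨o2, h3, h4⟩ := hp 0
    refine ⟨max o1 o2, ?_, fun i => ?_⟩
    · rcases le_total o1 o2 with h | h
      · rw [max_eq_right h]; exact h3
      · rw [max_eq_left h]; exact h1
    · refine Fin.cases ?_ (fun j => ?_) i
      · exact d2 _ _ (le_max_right _ _) h4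
      · exact d2 _ _ (le_max_left _ _) (h2 j)

/-- separation in `L[A]` -/
theorem sepL {M A : Set ZFSet.{u}} (hM : IsZF M A) {k : ℕ} (φ : Fml (k + 1))
    (p : Fin k → ZFSet.{u}) (hp : ∀ i, p i ∈ LOf M A) {a : ZFSet.{u}} (ha : a ∈ LOf M A) :
    ∃ b ∈ LOf M A, ∀ x, x ∈ b ↔ x ∈ a ∧ Sat (LOf M A) A φ (Fin.cons x p) := by
  obtain ⟨d1, d2, d3, d4, d5, d6⟩ := Pool.Agent.Helper25.SC.st_D0.{u} A
  obtain ⟨o, ho, hop⟩ := exists_level hM (Fin.cons a p : Fin (k + 1) → ZFSet.{u})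
    (cons_mem ha hp)
  obtain ⟨β, hβ, hβM, hrefl⟩ := st_D2r M A hM (k + 1) φ o ho
  have haβ : a ∈ Lv A β := d2 _ _ hβ.le (hop 0)
  have hpβ : ∀ i, p i ∈ Lv A β := fun i => d2 _ _ hβ.le (hop i.succ)
  set b : ZFSet.{u} := ZFSet.sep (fun x => Sat (LOf M A) A φ (Fin.cons x p)) a with hb
  refine ⟨b, ⟨β + 1, IsZF.oz_succ hM hβM, ?_⟩, fun x => by rw [hb, mem_sep]⟩
  rw [d5, Pool.Agent.Helper25.SC.mem_DefSub]
  refine ⟨fun x hx => d1 β a haβ x ((mem_sep.1 hx).1), k + 1,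
    .and (.mem 0 1) (φ.rn (Fin.cons 0 (fun i => i.succ.succ))), Fin.cons a p,
    cons_mem (M := {z | z ∈ Lv A β}) haβ hpβ, ?_⟩
  intro x hx
  rw [hb, mem_sep]
  simp only [Sat, sat_rn]
  refine and_congr Iff.rfl ?_
  have e : (Fin.cons x (Fin.cons a p) : Fin (k + 1 + 1) → ZFSet.{u}) ∘
      (Fin.cons 0 (fun i => i.succ.succ) : Fin (k + 1) → Fin (k + 1 + 1)) =
      (Fin.cons x p : Fin (k + 1) → ZFSet.{u}) := by
    funext j
    refine Fin.cases ?_ (fun j => ?_) j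
    · rfl
    · rfl
  rw [e]
  exact hrefl _ (cons_mem (M := {z | z ∈ Lv A β}) hx hpβ)

theorem st_D2 : ST_D2.{u} := by
  intro M A hM
  obtain ⟨d1, d2, d3, d4, d5, d6⟩ := Pool.Agent.Helper25.SC.st_D0.{u} A
  obtain ⟨e1, e2, e3, e4⟩ := st_D1.{u} M A hM
  have key : ∀ x ∈ LOf M A, ∀ y ∈ LOf M A, ∃ o : Ordinal.{u}, oz o ∈ M ∧ x ∈ Lv A o ∧
      y ∈ Lv A o := by
    intro x hx y hy
    obtain ⟨o, ho, h⟩ := exists_level hM (k := 2) ![x, y] (by
      intro i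
      fin_cases i
      · exact hx
      · exact hy)
    exact ⟨o, ho, h 0, h 1⟩
  refine ⟨e2, ?_, ?_, ?_, ?_, ?_, ?_⟩
  · have h := hM.omega
    rw [omega_eq] at h ⊢
    exact (e3 _).2 h
  · intro x hx y hy
    obtain ⟨o, ho, hxo, hyo⟩ := key x hx y hy
    obtain ⟨b, hb, hb'⟩ := sepL hM (k := 2) (.neg (.and (.neg (.eq 0 1)) (.neg (.eq 0 2))))
      ![x, y] (by
      intro i
      fin_cases i
      · exact hx
      · exact hy) (e4 o ho)
    have : ({x, y} : ZFSet.{u}) = b := by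
      ext z
      rw [hb', ZFSet.mem_pair]
      simp only [Sat]
      change _ ↔ z ∈ Lv A o ∧ ¬ (¬ z = x ∧ ¬ z = y)
      constructor
      · rintro (rfl | rfl)
        · exact ⟨hxo, fun h => h.1 rfl⟩
        · exact ⟨hyo, fun h => h.2 rfl⟩
      · rintro ⟨_, h⟩
        tauto
    rw [this]
    exact hb
  · intro x hx
    obtain ⟨o, ho, hxo, _⟩ := key x hx x hx
    obtain ⟨b, hb, hb'⟩ := sepL hM (k := 1) (.ex (.and (.mem 0 2) (.mem 1 0)))
      ![x] (by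
      intro i
      fin_cases i
      exact hx) (e4 o ho)
    have : (⋃₀ x : ZFSet.{u}) = b := by
      ext z
      rw [hb', ZFSet.mem_sUnion]
      simp only [Sat]
      change _ ↔ z ∈ Lv A o ∧ ∃ y ∈ LOf M A, y ∈ x ∧ z ∈ y
      constructor
      · rintro ⟨y, hy, hz⟩
        exact ⟨d1 o y (d1 o x hxo y hy) z hz, y, e2 x hx y hy, hy, hz⟩
      · rintro ⟨_, y, _, hy, hz⟩
        exact ⟨y, hy, hz⟩
    rw [this]
    exact hb
  · intro x hx
    set d : ZFSet.{u} := ZFSet.sep (fun z => z ∈ LOf M A) (Pow M x) with hd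
    have hdM : d ∈ M := by
      have h := (U.sep (C := CZ.{u}) (α := ZFSet.{u}) (f := fun N _ x => Pow N x)
        (R := fun M A _ z => z ∈ LOf M A) (U.pow U.id) (urel_LOf U.id.snd)).closed hM
        (a := x) (in_zfset.2 (e1 hx))
      exact in_zfset.1 h
    obtain ⟨o, ho, h⟩ := collL (α := PUnit.{u + 2}) (R := fun _ _ _ x y => x = y)
      (Helper22.SC.URel.eq U.id.fst.snd U.id.snd) hM (a := PUnit.unit) (fun i => i.elim0) hdM
      (fun z hz => ⟨z, (mem_sep.1 hz).2, rfl⟩)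
    obtain ⟨b, hb, hb'⟩ := sepL hM (k := 1) (.neg (.ex (.and (.mem 0 1) (.neg (.mem 0 2)))))
      ![x] (by
      intro i
      fin_cases i
      exact hx) (e4 o ho)
    refine ⟨b, hb, fun z => ?_⟩
    rw [hb']
    simp only [Sat]
    change (z ∈ Lv A o ∧ ¬ ∃ w ∈ LOf M A, w ∈ z ∧ ¬ w ∈ x) ↔ _
    constructor
    · rintro ⟨h1, h2⟩
      have hzL : z ∈ LOf M A := ⟨o, ho, h1⟩
      refine ⟨hzL, fun w hw => ?_⟩
      by_contra hc
      exact h2 ⟨w, e2 z hzL w hw, hw, hc⟩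
    · rintro ⟨h1, h2⟩
      have hzd : z ∈ d := mem_sep.2 ⟨mem_Pow.2 ⟨e1 h1, h2⟩, h1⟩
      obtain ⟨y, hy, rfl⟩ := h z hzd
      refine ⟨hy, ?_⟩
      rintro ⟨w, _, hw, hc⟩
      exact hc (h2 hw)
  · intro k φ p hp a ha
    exact sepL hM φ p hp ha
  · intro k φ p hp a ha hfun
    obtain ⟨o, ho, h⟩ := collL (α := Fin k → ZFSet.{u})
      (R := fun M A p x y => Sat (LOf M A) A φ (Fin.cons x (Fin.cons y p)))
      ((urel_satL (C := CZ.{u}) (fun M A hM => (st_D1 M A hM).1) φ).comp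
        (f := fun _ _ (q : ((Fin k → ZFSet.{u}) × ZFSet.{u}) × ZFSet.{u}) =>
          (Fin.cons q.1.2 (Fin.cons q.2 q.1.1) : Fin (k + 2) → ZFSet.{u}))
        (U.finCons U.id.fst.snd (U.finCons U.id.snd U.id.fst.fst))) hM (a := p)
      (fun i => e1 (hp i)) (e1 ha) (by
        intro x hx
        obtain ⟨y, ⟨hy, hy1⟩, _⟩ := hfun x hx
        exact ⟨y, hy, hy1⟩)
    obtain ⟨b, hb, hb'⟩ := sepL hM (k := k + 1) (.ex (.and (.mem 0 2)
      (φ.rn (Fin.cons 0 (Fin.cons 1 (fun i => i.succ.succ.succ))))))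
      (Fin.cons a p : Fin (k + 1) → ZFSet.{u}) (cons_mem ha hp) (e4 o ho)
    refine ⟨b, hb, fun y => ?_⟩
    rw [hb']
    simp only [Sat, sat_rn]
    have e : ∀ x, (Fin.cons x (Fin.cons y (Fin.cons a p)) : Fin (k + 1 + 1 + 1) → ZFSet.{u}) ∘
        (Fin.cons 0 (Fin.cons 1 (fun i => i.succ.succ.succ)) : Fin (k + 2) → Fin (k + 1 + 1 + 1))
        = (Fin.cons x (Fin.cons y p) : Fin (k + 2) → ZFSet.{u}) := by
      intro x
      funext j
      refine Fin.cases ?_ (fun j => ?_) j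
      · rfl
      · refine Fin.cases ?_ (fun j => ?_) j
        · rfl
        · rfl
    constructor
    · rintro ⟨h1, x, hx, hx2, hx3⟩
      rw [e] at hx3
      exact ⟨⟨o, ho, h1⟩, x, hx2, hx3⟩
    · rintro ⟨h1, x, hx, hx1⟩
      obtain ⟨y', hy', hy2⟩ := h x hx
      obtain ⟨y0, _, huni⟩ := hfun x hx
      have : y = y' := (huni y ⟨h1, hx1⟩).trans (huni y' ⟨⟨o, ho, hy'⟩, hy2⟩).symm
      subst this
      refine ⟨hy', x, e2 a ha x hx, hx, ?_⟩
      rw [e]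
      exact hx1

end Pool.Agent.Helper99.SC
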