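import Pool.Agent.Helper25.SC.D0
import Pool.Agent.Helper22.SC.LvU

/-! # Module D1: `L[A]` of a model of ZF -/

universe u

namespace Pool.Agent.Helper99.SC

open Pool.Agent.Helper66.SC Pool.Agent.Helper22.SC

theorem IsZF.oz_succ {M A : Set ZFSet.{u}} (hM : IsZF M A) {o : Ordinal.{u}} (ho : oz o ∈ M) :
    oz (o + 1) ∈ M := by
  have h := hM.succ_mem ho
  rwa [oz, Ordinal.toZFSet_add_one]

theorem IsZF.oz_lt {M A : Set ZFSet.{u}} (hM : IsZF M A) {o o' : Ordinal.{u}} (ho : oz o ∈ M)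
    (h : o' < o) : oz o' ∈ M :=
  hM.trans _ ho _ (Ordinal.mem_toZFSet_iff.2 ⟨o', h, rfl⟩)

theorem IsZF.oz_le {M A : Set ZFSet.{u}} (hM : IsZF M A) {o o' : Ordinal.{u}} (ho : oz o ∈ M)
    (h : o' ≤ o) : oz o' ∈ M := by
  rcases h.lt_or_eq with h | rfl
  · exact IsZF.oz_lt hM ho h
  · exact ho

theorem IsZF.Lv_mem {M A : Set ZFSet.{u}} (hM : IsZF M A) {o : Ordinal.{u}} (ho : oz o ∈ M) :
    Lv A o ∈ M := by
  have h := (st_TL.{u}).mem M A hM (fun _ => oz o) (fun _ => ho)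
  simpa [oz] using h

theorem st_D1 : ST_D1.{u} := by
  intro M A hM
  obtain ⟨d1, d2, d3, d4, d5, d6⟩ := Pool.Agent.Helper25.SC.st_D0.{u} A
  have hsub : LOf M A ⊆ M := by
    rintro x ⟨o, ho, hx⟩
    exact hM.trans _ (IsZF.Lv_mem hM ho) _ hx
  refine ⟨hsub, ?_, ?_, ?_⟩
  · rintro x ⟨o, ho, hx⟩ y hy
    exact ⟨o, ho, d1 o x hx y hy⟩
  · intro o
    constructor
    · exact fun h => hsub h
    · intro h
      exact ⟨o + 1, IsZF.oz_succ hM h, (d4 (o + 1) o).2 (Order.lt_succ o)⟩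
  · intro o h
    exact ⟨o + 1, IsZF.oz_succ hM h, d3 o (o + 1) (Order.lt_succ o)⟩

end Pool.Agent.Helper99.SC
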